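import Mathlib
import Pool.Agent.Helper76.Conway.Hecke3
import Pool.Agent.Helper76.Conway.Parity

/-!
# MP_ea8a26_gt: log-concavity of the Conway polynomial for closures of positive 3-braids

The Conway polynomial is taken as a function on braids: a family `∇ n : Braid n → ℤ[X]`
(`Braid n` is the braid group on `n + 1` strands) that is invariant under conjugation and
stabilisation, satisfies the skein relation and is `1` on the trivial one-strand braid. By the
theorems of Alexander and Markov the Conway polynomial of the closure is such a family (and the only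
one).
-/

namespace Pool.Agent.Results.MP_ea8a26_gt.PositiveThreeBraids

open Polynomial Pool.Agent.Helper76.Conway

/-- Artin's relations for the braid group on `n + 1` strands; generators are indexed by `Fin n`. -/
def artinRels (n : ℕ) : Set (FreeGroup (Fin n)) :=
  {r | ∃ i j : Fin n, (i : ℕ) + 1 = (j : ℕ) ∧
      r = FreeGroup.of i * FreeGroup.of j * FreeGroup.of i *
        (FreeGroup.of j * FreeGroup.of i * FreeGroup.of j)⁻¹} ∪
  {r | ∃ i j : Fin n, (i : ℕ) + 2 ≤ (j : ℕ) ∧
      r = FreeGroup.of i * FreeGroup.of j * (FreeGroup.of j * FreeGroup.of i)⁻¹}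

/-- The braid group on `n + 1` strands. -/
abbrev Braid (n : ℕ) : Type := PresentedGroup (artinRels n)

/-- The Artin generators: a single crossing between strands `i` and `i + 1`. -/
def σ {n : ℕ} (i : Fin n) : Braid n := PresentedGroup.of i

theorem σ_braid {n : ℕ} {i j : Fin n} (h : (i : ℕ) + 1 = (j : ℕ)) :
    (σ i * σ j * σ i : Braid n) = σ j * σ i * σ j :=
  PresentedGroup.mk_eq_mk_of_mul_inv_mem (rels := artinRels n)
    (x := FreeGroup.of i * FreeGroup.of j * FreeGroup.of i)
    (y := FreeGroup.of j * FreeGroup.of i * FreeGroup.of j) (Or.inl ⟨i, j, h, rfl⟩)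

theorem σ_comm {n : ℕ} {i j : Fin n} (h : (i : ℕ) + 2 ≤ (j : ℕ)) :
    (σ i * σ j : Braid n) = σ j * σ i :=
  PresentedGroup.mk_eq_mk_of_mul_inv_mem (rels := artinRels n)
    (x := FreeGroup.of i * FreeGroup.of j)
    (y := FreeGroup.of j * FreeGroup.of i) (Or.inr ⟨i, j, h, rfl⟩)

/-- Adding one strand on the right. -/
def incl (n : ℕ) : Braid n →* Braid (n + 1) :=
  PresentedGroup.toGroup (f := fun i : Fin n => (σ i.castSucc : Braid (n + 1))) (by
    rintro r (⟨i, j, h, rfl⟩ | ⟨i, j, h, rfl⟩)
    · simp only [map_mul, map_inv, FreeGroup.lift_apply_of]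
      rw [mul_inv_eq_one]
      exact σ_braid (by simpa using h)
    · simp only [map_mul, map_inv, FreeGroup.lift_apply_of]
      rw [mul_inv_eq_one]
      exact σ_comm (by simpa using h))

/-- The permutation of the endpoints of the strands. -/
def perm (n : ℕ) : Braid n →* Equiv.Perm (Fin (n + 1)) :=
  PresentedGroup.toGroup (f := fun i : Fin n => Equiv.swap i.castSucc i.succ) (by
    rintro r (⟨i, j, h, rfl⟩ | ⟨i, j, h, rfl⟩)
    · simp only [map_mul, map_inv, FreeGroup.lift_apply_of]
      rw [mul_inv_eq_one]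
      have e : j.castSucc = i.succ := Fin.ext (by simpa using h.symm)
      have h1 : i.castSucc ≠ i.succ := Fin.ne_of_val_ne (by simp)
      have h2 : i.castSucc ≠ j.succ := Fin.ne_of_val_ne (by simp; omega)
      have h3 : j.succ ≠ i.succ := Fin.ne_of_val_ne (by simp; omega)
      rw [e, Equiv.swap_mul_swap_mul_swap h1 h2]
      rw [Equiv.swap_comm i.castSucc i.succ, Equiv.swap_comm i.succ j.succ,
        Equiv.swap_mul_swap_mul_swap h3 h2.symm, Equiv.swap_comm]
    · simp only [map_mul, map_inv, FreeGroup.lift_apply_of]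
      rw [mul_inv_eq_one]
      apply Equiv.Perm.Disjoint.commute
      rw [Equiv.Perm.disjoint_iff_disjoint_support]
      rw [Equiv.Perm.support_swap, Equiv.Perm.support_swap]
      · simp only [Finset.disjoint_insert_right, Finset.disjoint_singleton_right,
          Finset.mem_insert, Finset.mem_singleton, Fin.ext_iff, Fin.val_castSucc, Fin.val_succ]
        omega
      · exact Fin.ne_of_val_ne (by simp)
      · exact Fin.ne_of_val_ne (by simp))

/-- The number of components of the closure of a braid: the number of cycles (fixed points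
included) of its permutation. -/
noncomputable def numComponents {n : ℕ} (β : Braid n) : ℕ :=
  Nat.card (Quotient (Equiv.Perm.SameCycle.setoid (perm n β)))

/-- The Conway polynomial as a function of braids. -/
structure IsConwayPolynomial (nabla : ∀ n, Braid n → ℤ[X]) : Prop where
  /-- value on the unknot -/
  unknot : nabla 0 1 = 1
  /-- first Markov move -/
  conj : ∀ (n : ℕ) (a b : Braid n), nabla n (a * b) = nabla n (b * a)
  /-- second Markov move, positive stabilisation -/
  stab : ∀ (n : ℕ) (b : Braid n), nabla (n + 1) (incl n b * σ (Fin.last n)) = nabla n b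
  /-- second Markov move, negative stabilisation -/
  stab_inv : ∀ (n : ℕ) (b : Braid n), nabla (n + 1) (incl n b * (σ (Fin.last n))⁻¹) = nabla n b
  /-- skein relation `∇(K₊) - ∇(K₋) = z ∇(K₀)` -/
  skein : ∀ (n : ℕ) (a b : Braid n) (i : Fin n),
    nabla n (a * σ i * b) - nabla n (a * (σ i)⁻¹ * b) = X * nabla n (a * b)

/-- The braid is positive: a product of generators. -/
def IsPositive {n : ℕ} (β : Braid n) : Prop :=
  β ∈ Submonoid.closure (Set.range (σ : Fin n → Braid n))

/-- The coefficient `a_k = c_{2k+m-1}` of the Laurent polynomial `t^{(1-m)/2} P(√t)`, where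
`P = ∑ c_j z^j` and `m` is the number of components. -/
noncomputable def coeffX (P : ℤ[X]) (m : ℕ) (k : ℤ) : ℤ :=
  if 0 ≤ 2 * k + m - 1 then P.coeff (2 * k + m - 1).toNat else 0

section proof

variable {nabla : ∀ n, Braid n → ℤ[X]} (h : IsConwayPolynomial nabla)

include h

theorem nabla1_gen : nabla 1 (σ 0) = 1 := by
  have := h.stab 0 1
  rw [map_one, one_mul, h.unknot] at this
  exact this

theorem nabla1_one : nabla 1 1 = 0 := by
  have h1 := nabla1_gen h
  have h2 := h.stab_inv 0 1
  rw [map_one, one_mul, h.unknot] at h2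
  have h3 := h.skein 1 1 1 0
  simp only [mul_one, one_mul] at h3
  have h4 : nabla 1 (σ 0)⁻¹ = 1 := h2
  rw [h1, h4, sub_self] at h3
  exact (mul_eq_zero.1 h3.symm).resolve_left X_ne_zero

theorem nabla_quad {n : ℕ} (a b : Braid n) (i : Fin n) :
    nabla n (a * σ i * σ i * b) = nabla n (a * b) + X * nabla n (a * σ i * b) := by
  have := h.skein n (a * σ i) b i
  have e : a * σ i * (σ i)⁻¹ * b = a * b := by group
  rw [e] at this
  linear_combination this

theorem nabla1_sq : nabla 1 (σ 0 * σ 0) = X := by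
  have := nabla_quad h (1 : Braid 1) 1 0
  simp only [mul_one, one_mul] at this
  rw [this, nabla1_one h, nabla1_gen h]; ring

theorem nabla2_gen1 : nabla 2 (σ 1) = 0 := by
  have := h.stab 1 1
  rw [map_one, one_mul, nabla1_one h] at this
  exact this

theorem nabla2_one : nabla 2 1 = 0 := by
  have h1 := nabla2_gen1 h
  have h2 := h.stab_inv 1 1
  rw [map_one, one_mul, nabla1_one h] at h2
  have h4 : nabla 2 (σ 1)⁻¹ = 0 := h2
  have h3 := h.skein 2 1 1 1
  simp only [mul_one, one_mul] at h3
  rw [h1, h4, sub_self] at h3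
  exact (mul_eq_zero.1 h3.symm).resolve_left X_ne_zero

omit h in
theorem incl_gen : incl 1 (σ 0) = σ 0 := PresentedGroup.toGroup.of _

theorem nabla2_01 : nabla 2 (σ 0 * σ 1) = 1 := by
  have := h.stab 1 (σ 0)
  rw [incl_gen, nabla1_gen h] at this
  exact this

theorem nabla2_gen0 : nabla 2 (σ 0) = 0 := by
  have h1 := nabla2_01 h
  have h2 := h.stab_inv 1 (σ 0)
  rw [incl_gen, nabla1_gen h] at h2
  have h4 : nabla 2 (σ 0 * (σ 1)⁻¹) = 1 := h2
  have h3 := h.skein 2 (σ 0) 1 1
  simp only [mul_one] at h3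
  rw [h1, h4, sub_self] at h3
  exact (mul_eq_zero.1 h3.symm).resolve_left X_ne_zero

theorem nabla2_010 : nabla 2 (σ 0 * σ 1 * σ 0) = X := by
  rw [h.conj, ← mul_assoc]
  have := h.stab 1 (σ 0 * σ 0)
  rw [map_mul, incl_gen, nabla1_sq h] at this
  exact this

/-- The values on words in the two generators of the three-strand braid group. -/
theorem isHecke : IsHecke (X : ℤ[X])
    (fun l => nabla 2 ((l.map (σ : Fin 2 → Braid 2)).prod)) where
  quad l₁ l₂ i := by
    have := nabla_quad h ((l₁.map (σ : Fin 2 → Braid 2)).prod) ((l₂.map σ).prod) i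
    simpa [mul_assoc] using this
  braid l₁ l₂ := by
    have hb : (σ 0 * σ 1 * σ 0 : Braid 2) = σ 1 * σ 0 * σ 1 := σ_braid rfl
    have e : ((l₁ ++ 0 :: 1 :: 0 :: l₂).map (σ : Fin 2 → Braid 2)).prod =
        ((l₁ ++ 1 :: 0 :: 1 :: l₂).map (σ : Fin 2 → Braid 2)).prod := by
      simp only [List.map_append, List.map_cons, List.prod_append, List.prod_cons]
      rw [← mul_assoc (σ 0) (σ 1), ← mul_assoc (σ 0 * σ 1) (σ 0), hb]
      simp only [mul_assoc]
    simp only [e]

theorem base_vals :
    (fun l => nabla 2 ((l.map (σ : Fin 2 → Braid 2)).prod)) [] = 0 ∧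
    (fun l => nabla 2 ((l.map (σ : Fin 2 → Braid 2)).prod)) [0] = 0 ∧
    (fun l => nabla 2 ((l.map (σ : Fin 2 → Braid 2)).prod)) [1] = 0 ∧
    (fun l => nabla 2 ((l.map (σ : Fin 2 → Braid 2)).prod)) [0, 1] = 1 ∧
    (fun l => nabla 2 ((l.map (σ : Fin 2 → Braid 2)).prod)) [1, 0] = 1 ∧
    (fun l => nabla 2 ((l.map (σ : Fin 2 → Braid 2)).prod)) [0, 1, 0] = X := by
  refine ⟨?_, ?_, ?_, ?_, ?_, ?_⟩
  · simpa using nabla2_one h
  · simpa using nabla2_gen0 h
  · simpa using nabla2_gen1 h
  · simpa using nabla2_01 h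
  · simpa using (h.conj 2 (σ 1) (σ 0)).trans (nabla2_01 h)
  · simpa [mul_assoc] using nabla2_010 h

/-- Comparison with the reduced Burau representation. -/
theorem compare (l : List (Fin 2)) {x : ℂ} (hx : x ≠ 0) :
    ((x - x⁻¹) ^ 2 + 3) * aeval (x - x⁻¹) (nabla 2 ((l.map (σ : Fin 2 → Braid 2)).prod)) =
      Phi x l := by
  obtain ⟨b1, b2, b3, b4, b5, b6⟩ := base_vals h
  set G : List (Fin 2) → ℤ[X] := fun l => nabla 2 ((l.map (σ : Fin 2 → Braid 2)).prod) with hG
  have hGH : IsHecke (X : ℤ[X]) G := isHecke h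
  have hGe : IsHecke (x - x⁻¹) (fun l => aeval (x - x⁻¹) (G l)) :=
    ⟨fun l₁ l₂ i => by rw [hGH.quad]; simp, fun l₁ l₂ => by rw [hGH.braid]⟩
  have hD := (hGe.const_mul ((x - x⁻¹) ^ 2 + 3)).sub (Phi_isHecke hx)
  have := IsHecke.eq_zero l hD (by simp only [b1, Phi_nil]; simp)
    (by simp only [b2, Phi_single]; simp) (by simp only [b3, Phi_single]; simp)
    (by simp only [b4, Phi_01 hx]; simp) (by simp only [b5, Phi_10 hx]; simp)
    (by simp only [b6, Phi_010 hx]; simp; ring)
  exact sub_eq_zero.1 this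

theorem parity (l : List (Fin 2)) (j : ℕ) (hj : (j + l.length) % 2 = 1) :
    (nabla 2 ((l.map (σ : Fin 2 → Braid 2)).prod)).coeff j = 0 := by
  obtain ⟨b1, b2, b3, b4, b5, b6⟩ := base_vals h
  set G : List (Fin 2) → ℤ[X] := fun l => nabla 2 ((l.map (σ : Fin 2 → Braid 2)).prod) with hG
  have hGH : IsHecke (X : ℤ[X]) G := isHecke h
  have hF : IsHecke (X : ℤ[X]) (fun l => (-1) ^ l.length * (G l).comp (-X)) :=
    ⟨fun l₁ l₂ i => by
      rw [hGH.quad]
      simp only [add_comp, mul_comp, X_comp, List.length_append, List.length_cons]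
      ring, fun l₁ l₂ => by rw [hGH.braid]; simp⟩
  have := IsHecke.eq_zero l (hF.sub hGH) (by simp only [b1]; simp)
    (by simp only [b2]; simp) (by simp only [b3]; simp)
    (by simp only [b4]; simp) (by simp only [b5]; simp) (by simp only [b6]; simp; ring)
  have h2 : (-1) ^ l.length * (G l).comp (-X) = G l := sub_eq_zero.1 this
  have h3 : ((-1 : ℤ[X]) ^ l.length * (G l).comp (-X)).coeff j = (G l).coeff j := by rw [h2]
  have h4 : ((-1 : ℤ[X]) ^ l.length * (G l).comp (-X)).coeff j =
      (-1) ^ l.length * ((-1) ^ j * (G l).coeff j) := by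
    rw [show ((-1 : ℤ[X]) ^ l.length) = C ((-1) ^ l.length) by simp, coeff_C_mul,
      show (-X : ℤ[X]) = C (-1) * X by simp, comp_C_mul_X_coeff, mul_comm (((-1 : ℤ)) ^ j)]
  rw [h4, ← mul_assoc, ← pow_add] at h3
  have h5 : ((-1 : ℤ)) ^ (l.length + j) = -1 := by
    apply Odd.neg_one_pow
    rw [Nat.odd_iff]; omega
  rw [h5] at h3
  have : (G l).coeff j = 0 := by linarith
  exact this

theorem single_letter (i : Fin 2) (k : ℕ) :
    nabla 2 (((List.replicate k i).map (σ : Fin 2 → Braid 2)).prod) = 0 := by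
  obtain ⟨b1, b2, b3, -, -, -⟩ := base_vals h
  have hH := isHecke h
  induction k using Nat.strong_induction_on with
  | _ k ih =>
  match k, ih with
  | 0, _ => exact b1
  | 1, _ =>
    fin_cases i
    · exact b2
    · exact b3
  | k + 2, ih =>
    have := hH.quad [] (List.replicate k i) i
    simp only [List.nil_append] at this
    have h1 := ih k (by omega)
    have h2 := ih (k + 1) (by omega)
    rw [List.replicate_succ] at h2
    rw [List.replicate_succ, List.replicate_succ, this, h1, h2]
    ring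

theorem zeros3 (l : List (Fin 2)) (z : ℂ)
    (hne : nabla 2 ((l.map (σ : Fin 2 → Braid 2)).prod) ≠ 0)
    (hz : aeval z (nabla 2 ((l.map (σ : Fin 2 → Braid 2)).prod)) = 0) :
    3 * z.re ^ 2 ≤ z.im ^ 2 := by
  by_contra hcon
  push Not at hcon
  have hre : z.re ≠ 0 := by
    intro h0; rw [h0] at hcon; nlinarith [sq_nonneg z.im]
  obtain ⟨x, hx1, hxz⟩ := exists_x hre
  have hx0 : x ≠ 0 := norm_pos_iff.1 (by linarith)
  have hcmp := compare h l hx0
  rw [hxz, hz, mul_zero] at hcmp
  have hs : (x - x⁻¹).im ^ 2 < 3 * (x - x⁻¹).re ^ 2 := by rw [hxz]; exact hcon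
  by_cases hl : ∃ a ∈ l, ∃ b ∈ l, a ≠ b
  · exact Phi_ne_zero hx1 hs hl hcmp.symm
  · push Not at hl
    apply hne
    cases l with
    | nil => exact single_letter h 0 0
    | cons a l =>
      have : a :: l = List.replicate (l.length + 1) a := by
        rw [List.eq_replicate_iff]
        exact ⟨rfl, fun b hb => hl b hb a (by simp)⟩
      rw [this]
      exact single_letter h a _

theorem main3 (β : Braid 2) (hβ : IsPositive β) :
    (∀ j : ℤ, cz (nabla 2 β) (j + 2) * cz (nabla 2 β) (j - 2) ≤ cz (nabla 2 β) j ^ 2) ∧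
      (nabla 2 β ≠ 0 → ∀ z : ℂ, aeval z (nabla 2 β) = 0 → 3 * z.re ^ 2 ≤ z.im ^ 2) := by
  obtain ⟨l, hl, rfl⟩ := Submonoid.exists_list_of_mem_closure hβ
  obtain ⟨l', rfl⟩ : ∃ l' : List (Fin 2), l = l'.map σ := by
    choose! g hg using hl
    refine ⟨l.map g, ?_⟩
    rw [List.map_map]
    conv_lhs => rw [← List.map_id l]
    apply List.map_congr_left
    intro a ha
    exact (hg a ha).symm
  have hz := fun hne z => zeros3 h l' z hne
  exact ⟨logConcave_main _ l'.length (fun j hj => parity h l' j hj) hz, hz⟩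

omit h in
theorem stab_positive {n : ℕ} (β : Braid n) (hβ : IsPositive β) :
    IsPositive (incl n β * σ (Fin.last n)) := by
  apply Submonoid.mul_mem
  · unfold IsPositive at hβ
    induction hβ using Submonoid.closure_induction with
    | mem x hx =>
      obtain ⟨i, rfl⟩ := hx
      have : incl n (σ i) = σ i.castSucc := PresentedGroup.toGroup.of _
      rw [this]
      exact Submonoid.subset_closure ⟨_, rfl⟩
    | one => rw [map_one]; exact Submonoid.one_mem _
    | mul x y _ _ hx hy => rw [map_mul]; exact Submonoid.mul_mem _ hx hy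
  · exact Submonoid.subset_closure ⟨_, rfl⟩

end proof

/-- For every positive braid `β` on at most three strands, the Laurent polynomial
`t^{(1-n(K))/2} ∇_K(√t)` of its closure `K` is log-concave; moreover every complex zero `z` of
`∇_K` (if `∇_K ≠ 0`) satisfies `3 (Re z)^2 ≤ (Im z)^2`, that is, `|arg(-z^2)| ≤ 60°` or `z = 0`. -/
theorem result (nabla : ∀ n, Braid n → ℤ[X]) (h : IsConwayPolynomial nabla)
    (n : ℕ) (hn : n + 1 ≤ 3) (β : Braid n) (hβ : IsPositive β) :
    (∀ k : ℤ, coeffX (nabla n β) (numComponents β) (k + 1) *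
        coeffX (nabla n β) (numComponents β) (k - 1) ≤
          coeffX (nabla n β) (numComponents β) k ^ 2) ∧
      (nabla n β ≠ 0 → ∀ z : ℂ, aeval z (nabla n β) = 0 → 3 * z.re ^ 2 ≤ z.im ^ 2) := by
  have key : (∀ j : ℤ, cz (nabla n β) (j + 2) * cz (nabla n β) (j - 2) ≤ cz (nabla n β) j ^ 2) ∧
      (nabla n β ≠ 0 → ∀ z : ℂ, aeval z (nabla n β) = 0 → 3 * z.re ^ 2 ≤ z.im ^ 2) := by
    have hn' : n < 3 := by omega
    clear hn
    interval_cases n
    · have h1 := stab_positive β hβ
      have h2 := stab_positive _ h1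
      have := main3 h _ h2
      rwa [h.stab, h.stab] at this
    · have h1 := stab_positive β hβ
      have := main3 h _ h1
      rwa [h.stab] at this
    · exact main3 h β hβ
  refine ⟨fun k => ?_, key.2⟩
  have e : ∀ k : ℤ, coeffX (nabla n β) (numComponents β) k =
      cz (nabla n β) (2 * k + numComponents β - 1) := fun k => rfl
  rw [e, e, e]
  have := key.1 (2 * k + numComponents β - 1)
  rw [show 2 * (k + 1) + (numComponents β : ℤ) - 1 = 2 * k + numComponents β - 1 + 2 by ring,
    show 2 * (k - 1) + (numComponents β : ℤ) - 1 = 2 * k + numComponents β - 1 - 2 by ring]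
  exact this

end Pool.Agent.Results.MP_ea8a26_gt.PositiveThreeBraids
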